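import Pool.Agent.Helper81.LT.Inc

/-!
# Packet STDEQ (MP_c20641_lc)
-/

namespace Pool.Agent.Helper33.LT

open Pool.Agent.Helper81.LT FirstOrder Language

attribute [local instance] stdStr

theorem stdeq : STDEQ := by
  intro M _ _ _ _ hM σ
  have hinj : Function.Injective (Nat.cast : ℕ → M) := Nat.cast_injective
  have hsur : Function.Surjective (Nat.cast : ℕ → M) := fun a => by
    obtain ⟨n, hn⟩ := hM a
    exact ⟨n, hn.symm⟩
  let e : ℕ ≃ M := Equiv.ofBijective _ ⟨hinj, hsur⟩
  have he : ∀ n, e n = (n : M) := fun _ => rfl
  let E : @FirstOrder.Language.Equiv LA ℕ M natStr (stdStr M) :=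
    { toEquiv := e
      map_fun' := by
        intro n f x
        change AFun n at f
        cases f with
        | zero => exact Nat.cast_zero
        | one => exact Nat.cast_one
        | add => exact Nat.cast_add _ _
        | mul => exact Nat.cast_mul _ _
      map_rel' := by
        intro n r x
        change ARel n at r
        cases r with
        | lt => exact Nat.cast_lt }
  exact (StrongHomClass.realize_sentence E σ).symm

end Pool.Agent.Helper33.LT
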