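import Pool.Agent.Helper81.LT.Mod

/-!
# Packet TSPA (MP_c20641_lc)
-/

namespace Pool.Agent.Helper33.LT

open Pool.Agent.Helper81.LT

section

variable {Λ : Type} [Lattice Λ] [BoundedOrder Λ] {M : Type} [CommSemiring M] [LinearOrder M]

/-- `u`, `v` belong to the same coded space and have distance `y` there -/
def Cod (c : Λ → ℕ) (u v : M) (y : Λ) : Prop :=
  ∃ a b m i j : M, u = pr (pr a b) (pr m i) ∧ v = pr (pr a b) (pr m j) ∧
    i < m ∧ j < m ∧ Val c a b m ∧ Bt a b (i * m + j) (c y : M)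

open Classical in
/-- the distance -/
noncomputable def dist (c : Λ → ℕ) (u v : M) : Λ :=
  if u = v then ⊤ else if h : ∃ y, Cod c u v y then h.choose else ⊥

variable [IsStrictOrderedRing M] [PAM M]

theorem cod_unique (h : BTU) {c : Λ → ℕ} (hc : Function.Injective c) {u v : M} {y y' : Λ}
    (h1 : Cod c u v y) (h2 : Cod c u v y') : y = y' := by
  obtain ⟨hB, hP, -⟩ := h M
  obtain ⟨a, b, m, i, j, hu, hv, hi, hj, hV, hb⟩ := h1
  obtain ⟨a', b', m', i', j', hu', hv', hi', hj', hV', hb'⟩ := h2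
  rw [hu] at hu'
  rw [hv] at hv'
  obtain ⟨e1, e2⟩ := hP _ _ _ _ hu'
  obtain ⟨rfl, rfl⟩ := hP _ _ _ _ e1
  obtain ⟨rfl, rfl⟩ := hP _ _ _ _ e2
  obtain ⟨-, e3⟩ := hP _ _ _ _ hv'
  obtain ⟨-, rfl⟩ := hP _ _ _ _ e3
  have := hB _ _ _ _ _ hb hb'
  exact hc (Nat.cast_injective this)

theorem cod_eq (h : BTU) {c : Λ → ℕ} (hc : Function.Injective c) {u : M} {y : Λ}
    (h1 : Cod c u u y) : y = ⊤ := by
  have h1' := h1
  obtain ⟨a, b, m, i, j, hu, hv, hi, hj, hV, hb⟩ := h1'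
  exact cod_unique h hc h1 ⟨a, b, m, i, i, hu, hu, hi, hi, hV, hV.2.1 i hi⟩

omit [IsStrictOrderedRing M] [PAM M] in
theorem cod_top {c : Λ → ℕ} {u v : M}
    (h1 : Cod c u v ⊤) : u = v := by
  obtain ⟨a, b, m, i, j, hu, hv, hi, hj, hV, hb⟩ := h1
  have := hV.2.2.1 i hi j hj hb
  rw [hu, hv, this]

omit [IsStrictOrderedRing M] [PAM M] in
theorem cod_symm {c : Λ → ℕ} {u v : M} {y : Λ}
    (h1 : Cod c u v y) : Cod c v u y := by
  obtain ⟨a, b, m, i, j, hu, hv, hi, hj, hV, hb⟩ := h1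
  exact ⟨a, b, m, j, i, hv, hu, hj, hi, hV, hV.2.2.2.1 y i hi j hj hb⟩

theorem dist_of_cod (h : BTU) {c : Λ → ℕ} (hc : Function.Injective c) {u v : M} {y : Λ}
    (h1 : Cod c u v y) : dist c u v = y := by
  unfold dist
  split_ifs with h2 h3
  · subst h2
    exact (cod_eq h hc h1).symm
  · exact cod_unique h hc h3.choose_spec h1
  · exact absurd ⟨y, h1⟩ h3

omit [IsStrictOrderedRing M] [PAM M] in
theorem dist_self (c : Λ → ℕ) (u : M) : dist c u u = ⊤ := by
  unfold dist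
  rw [if_pos rfl]

omit [IsStrictOrderedRing M] [PAM M] in
theorem dist_of_not {c : Λ → ℕ} {u v : M} (hne : u ≠ v) (h1 : ¬ ∃ y, Cod c u v y) :
    dist c u v = ⊥ := by
  unfold dist
  rw [if_neg hne, dif_neg h1]

end

theorem tspa (h : BTU) : ∀ (Λ : Type) [Lattice Λ] [BoundedOrder Λ] [Nontrivial Λ] (c : Λ → ℕ),
    Function.Injective c →
    ∀ (M : Type) [CommSemiring M] [LinearOrder M] [IsStrictOrderedRing M] [PAM M],
      ∃ t : M → M → Λ, (∀ a, t a a = ⊤) ∧ (∀ a b, t a b = ⊤ → a = b) ∧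
        (∀ a b, t a b = t b a) ∧ (∀ a b d, t a b ⊓ t b d ≤ t a d) ∧
        (∀ x u v, x ≤ t u v ↔ Near c x u v) := by
  intro Λ _ _ _ c hc M _ _ _ _
  obtain ⟨hB, hP, -⟩ := h M
  refine ⟨dist c, dist_self c, ?_, ?_, ?_, ?_⟩
  · intro u v huv
    by_contra hne
    by_cases h1 : ∃ y, Cod c u v y
    · obtain ⟨y, hy⟩ := h1
      rw [dist_of_cod h hc hy] at huv
      subst huv
      exact hne (cod_top hy)
    · rw [dist_of_not hne h1] at huv
      exact bot_ne_top huv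
  · intro u v
    by_cases hne : u = v
    · rw [hne]
    · by_cases h1 : ∃ y, Cod c u v y
      · obtain ⟨y, hy⟩ := h1
        rw [dist_of_cod h hc hy, dist_of_cod h hc (cod_symm hy)]
      · have h2 : ¬ ∃ y, Cod c v u y := fun ⟨y, hy⟩ => h1 ⟨y, cod_symm hy⟩
        rw [dist_of_not hne h1, dist_of_not (Ne.symm hne) h2]
  · intro u v w
    by_cases huv : u = v
    · rw [huv]
      exact inf_le_right
    by_cases hvw : v = w
    · rw [hvw]
      exact inf_le_left
    by_cases h1 : ∃ y, Cod c u v y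
    · by_cases h2 : ∃ y, Cod c v w y
      · obtain ⟨x, hx⟩ := h1
        obtain ⟨y, hy⟩ := h2
        rw [dist_of_cod h hc hx, dist_of_cod h hc hy]
        obtain ⟨a, b, m, i, j, hu, hv, hi, hj, hV, hb⟩ := hx
        obtain ⟨a', b', m', i', j', hu', hv', hi', hj', hV', hb'⟩ := hy
        rw [hv] at hu'
        obtain ⟨e1, e2⟩ := hP _ _ _ _ hu'
        obtain ⟨rfl, rfl⟩ := hP _ _ _ _ e1
        obtain ⟨rfl, rfl⟩ := hP _ _ _ _ e2
        obtain ⟨z, hz⟩ := hV.1 i hi j' hj'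
        have hcod : Cod c u w z := ⟨a, b, m, i, j', hu, hv', hi, hj', hV, hz⟩
        rw [dist_of_cod h hc hcod]
        exact hV.2.2.2.2 x y z i hi j hj j' hj' hb hb' hz
      · rw [dist_of_not hvw h2, inf_bot_eq]
        exact bot_le
    · rw [dist_of_not huv h1, bot_inf_eq]
      exact bot_le
  · intro x u v
    constructor
    · intro hx
      by_cases hne : u = v
      · exact Or.inl hne
      · by_cases h1 : ∃ y, Cod c u v y
        · obtain ⟨y, hy⟩ := h1
          rw [dist_of_cod h hc hy] at hx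
          obtain ⟨a, b, m, i, j, hu, hv, hi, hj, hV, hb⟩ := hy
          exact Or.inr (Or.inr ⟨a, b, m, i, j, hu, hv, hi, hj, hV, y, hx, hb⟩)
        · rw [dist_of_not hne h1] at hx
          exact Or.inr (Or.inl (le_bot_iff.mp hx))
    · rintro (rfl | rfl | ⟨a, b, m, i, j, hu, hv, hi, hj, hV, y, hx, hb⟩)
      · rw [dist_self]
        exact le_top
      · exact bot_le
      · rw [dist_of_cod h hc ⟨a, b, m, i, j, hu, hv, hi, hj, hV, hb⟩]
        exact hx

end Pool.Agent.Helper33.LT
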